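import Pool.Agent.Helper69.ST.GoalsR
import Pool.Agent.Helper27.Lin.Montel

/-!
# Project ST, packet MT: Montel's theorem in one variable
-/

set_option autoImplicit false

open Metric Set Filter Topology

namespace Pool.Agent.Helper61.ST.MT

open Pool.Agent.Helper95.Lin

/-- the constant vector -/
def cv (w : ℂ) : Cn 1 := fun _ => w

lemma cv_apply (z : Cn 1) : cv (z 0) = z := by
  funext i
  fin_cases i
  rfl

lemma cont_cv : Continuous cv := continuous_pi fun _ => continuous_id

lemma diff_cv : Differentiable ℂ cv := differentiable_pi.2 fun _ => differentiable_id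

lemma diff_ev : Differentiable ℂ (fun z : Cn 1 => z 0) := differentiable_pi.1 differentiable_id 0

theorem t : Helper69.ST.S_MT := by
  intro U f hU hf hb
  set U' : Set (Cn 1) := (fun z : Cn 1 => z 0) ⁻¹' U with hU'
  have hU'o : IsOpen U' := hU.preimage (continuous_apply 0)
  obtain ⟨φ, hφ, F, hF, hlim⟩ := _root_.Helper27.LinMontel.montel (n := 1) (m := 1) U' hU'o
    (fun k z => cv (f k (z 0)))
    (fun k => diff_cv.comp_differentiableOn
      ((hf k).comp diff_ev.differentiableOn fun z hz => hz))
    (fun K hK _ => ⟨1, fun k z hz => (pi_norm_le_iff_of_nonneg zero_le_one).2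
      fun _ => hb k _ (hK hz)⟩)
  refine ⟨φ, fun w => F (cv w) 0, hφ, ?_, ?_⟩
  · exact diff_ev.comp_differentiableOn (hF.comp diff_cv.differentiableOn fun z hz => hz)
  · rw [tendstoLocallyUniformlyOn_iff_forall_isCompact hU]
    intro K hK hKc
    rw [Metric.tendstoUniformlyOn_iff]
    intro ε hε
    have h1 := hlim (cv '' K) (by rintro _ ⟨w, hw, rfl⟩; exact hK hw) (hKc.image cont_cv)
      (ε / 2) (half_pos hε)
    filter_upwards [h1] with k hk w hw
    have h2 := hk (cv w) ⟨w, hw, rfl⟩
    have h3 := norm_le_pi_norm (cv (f (φ k) (cv w 0)) - F (cv w)) 0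
    rw [dist_comm, dist_eq_norm]
    have h4 : (cv (f (φ k) (cv w 0)) - F (cv w)) 0 = f (φ k) w - F (cv w) 0 := rfl
    rw [h4] at h3
    linarith

end Pool.Agent.Helper61.ST.MT
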